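import Pool.Agent.H5.GD.Final

/-!
# Block types: Hodge types with pairwise distinct consecutive values
-/

noncomputable section

namespace GD

open Complex NumberField

section

variable {K : Type} [Field K] [NumberField K]

/-- `s` is symmetric and takes every value `0, ..., 2n-1` once, the largest one at `e`. -/
structure IsBlock (e : K →+* ℂ) (s : (K →+* ℂ) → ℕ) : Prop where
  inj : Function.Injective s
  symm : ∀ σ, s σ + s (ComplexEmbedding.conjugate σ) + 1 = Module.finrank ℚ K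
  max : ∀ σ, s σ ≤ s e
  conj_e : s (ComplexEmbedding.conjugate e) = 0

/-- There is a CM type containing `e` and `g`. -/
theorem exists_type_with (hK : ∀ σ : K →+* ℂ, ComplexEmbedding.conjugate σ ≠ σ) (e g : K →+* ℂ)
    (h : g ≠ ComplexEmbedding.conjugate e) :
    ∃ Φ : Set (K →+* ℂ), (∀ σ, σ ∈ Φ ↔ ComplexEmbedding.conjugate σ ∉ Φ) ∧ e ∈ Φ ∧ g ∈ Φ := by
  classical
  obtain ⟨P, hP, -⟩ := exists_types hK 0 (fun _ => 0) (fun _ => rfl)
  have hinj : ∀ σ τ : K →+* ℂ, ComplexEmbedding.conjugate σ = τ ↔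
      σ = ComplexEmbedding.conjugate τ := by
    intro σ τ
    constructor
    · rintro rfl
      exact (conj_conj σ).symm
    · rintro rfl
      exact conj_conj τ
  have he := hK e
  have hg := hK g
  refine ⟨{σ | σ = e ∨ σ = g ∨ (σ ≠ ComplexEmbedding.conjugate e ∧
    σ ≠ ComplexEmbedding.conjugate g ∧ σ ∈ P 0)}, ?_, Or.inl rfl, Or.inr (Or.inl rfl)⟩
  intro σ
  simp only [Set.mem_setOf_eq, not_or, not_and, ne_eq, hinj, conj_conj]
  have h0 := hP 0 σ
  by_cases h1 : σ = e
  · subst h1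
    refine ⟨fun _ => ⟨Ne.symm he, ?_, ?_⟩, fun _ => Or.inl rfl⟩
    · intro hc
      apply h
      rw [hc, conj_conj]
    · intro hc
      exact absurd rfl hc
  · by_cases h2 : σ = g
    · subst h2
      refine ⟨fun _ => ⟨h, Ne.symm hg, ?_⟩, fun _ => Or.inr (Or.inl rfl)⟩
      intro _ hc
      exact absurd rfl hc
    · by_cases h3 : σ = ComplexEmbedding.conjugate e
      · subst h3
        refine ⟨?_, fun hc => absurd rfl hc.1⟩
        rintro (hc | hc | hc)
        · exact absurd hc h1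
        · exact absurd hc h2
        · exact absurd rfl hc.1
      · by_cases h4 : σ = ComplexEmbedding.conjugate g
        · subst h4
          refine ⟨?_, fun hc => absurd rfl hc.2.1⟩
          rintro (hc | hc | hc)
          · exact absurd hc h1
          · exact absurd hc h2
          · exact absurd rfl hc.2.1
        · constructor
          · rintro (hc | hc | hc)
            · exact absurd hc h1
            · exact absurd hc h2
            · exact ⟨h3, h4, fun _ _ => h0.1 hc.2.2⟩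
          · intro hc
            exact Or.inr (Or.inr ⟨h3, h4, h0.2 (hc.2.2 h1 h2)⟩)

/-- Block types with a prescribed middle value. -/
theorem exists_block (hK : ∀ σ : K →+* ℂ, ComplexEmbedding.conjugate σ ≠ σ) (e g : K →+* ℂ)
    (h : g ≠ ComplexEmbedding.conjugate e) :
    ∃ s, IsBlock e s ∧ (g ≠ e → s g = s (ComplexEmbedding.conjugate g) + 1) := by
  classical
  obtain ⟨Φ, hΦ, heΦ, hgΦ⟩ := exists_type_with hK e g h
  set n := Fintype.card Φ with hn
  have hcard : Module.finrank ℚ K = n + n := by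
    rw [← card_emb K, hn, ← Fintype.card_sum]
    refine (Fintype.card_congr ?_).symm
    let c : Φ ≃ (Φᶜ : Set (K →+* ℂ)) :=
      { toFun := fun σ => ⟨ComplexEmbedding.conjugate σ.1, (hΦ σ.1).1 σ.2⟩
        invFun := fun σ => ⟨ComplexEmbedding.conjugate σ.1, (hΦ _).2 (by
          rw [conj_conj]
          exact σ.2)⟩
        left_inv := fun σ => Subtype.ext (conj_conj _)
        right_inv := fun σ => Subtype.ext (conj_conj _) }
    exact (Equiv.sumCongr (Equiv.refl _) c).trans (Equiv.Set.sumCompl Φ)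
  have hn0 : 0 < n := Fintype.card_pos_iff.2 ⟨⟨e, heΦ⟩⟩
  let b0 : Φ ≃ Fin n := Fintype.equivFin Φ
  let b1 : Φ ≃ Fin n := b0.trans (Equiv.swap (b0 ⟨e, heΦ⟩) ⟨n - 1, by omega⟩)
  have hb1 : b1 ⟨e, heΦ⟩ = ⟨n - 1, by omega⟩ := by
    simp only [b1, Equiv.trans_apply, Equiv.swap_apply_left]
  obtain ⟨b, hbe, hbg⟩ : ∃ b : Φ ≃ Fin n, b ⟨e, heΦ⟩ = ⟨n - 1, by omega⟩ ∧
      (g ≠ e → b ⟨g, hgΦ⟩ = ⟨0, hn0⟩) := by
    by_cases hge : g = e
    · exact ⟨b1, hb1, fun hc => absurd hge hc⟩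
    · have hne : b1 ⟨g, hgΦ⟩ ≠ b1 ⟨e, heΦ⟩ := by
        intro hc
        exact hge (congrArg Subtype.val (b1.injective hc))
      have hn2 : n - 1 ≠ 0 := by
        intro h0
        apply hne
        apply Fin.ext
        have h1 := (b1 ⟨g, hgΦ⟩).2
        have h2 := (b1 ⟨e, heΦ⟩).2
        omega
      refine ⟨b1.trans (Equiv.swap (b1 ⟨g, hgΦ⟩) ⟨0, hn0⟩), ?_, fun _ => ?_⟩
      · rw [Equiv.trans_apply, Equiv.swap_apply_of_ne_of_ne (Ne.symm hne), hb1]
        rw [hb1]
        intro hc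
        exact hn2 (congrArg Fin.val hc)
      · rw [Equiv.trans_apply, Equiv.swap_apply_left]
  have hconj : ∀ σ, σ ∉ Φ → ComplexEmbedding.conjugate σ ∈ Φ := by
    intro σ hσ
    by_contra hc
    exact hσ ((hΦ σ).2 hc)
  let s : (K →+* ℂ) → ℕ := fun σ => if hσ : σ ∈ Φ then n + (b ⟨σ, hσ⟩).1
    else n - 1 - (b ⟨ComplexEmbedding.conjugate σ, hconj σ hσ⟩).1
  have hs1 : ∀ σ (hσ : σ ∈ Φ), s σ = n + (b ⟨σ, hσ⟩).1 := fun σ hσ => dif_pos hσ
  have hs2 : ∀ σ (hσ : σ ∉ Φ), s σ =
      n - 1 - (b ⟨ComplexEmbedding.conjugate σ, hconj σ hσ⟩).1 := fun σ hσ => dif_neg hσ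
  have hs3 : ∀ σ (hσ : σ ∈ Φ), s (ComplexEmbedding.conjugate σ) = n - 1 - (b ⟨σ, hσ⟩).1 := by
    intro σ hσ
    rw [hs2 _ ((hΦ σ).1 hσ)]
    congr 4
    exact conj_conj σ
  refine ⟨s, ⟨?_, ?_, ?_, ?_⟩, ?_⟩
  · intro σ τ hστ
    by_cases h1 : σ ∈ Φ
    · by_cases h2 : τ ∈ Φ
      · rw [hs1 σ h1, hs1 τ h2] at hστ
        have h3 : b ⟨σ, h1⟩ = b ⟨τ, h2⟩ := Fin.ext (by omega)
        exact congrArg Subtype.val (b.injective h3)
      · rw [hs1 σ h1, hs2 τ h2] at hστ
        omega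
    · by_cases h2 : τ ∈ Φ
      · rw [hs2 σ h1, hs1 τ h2] at hστ
        omega
      · rw [hs2 σ h1, hs2 τ h2] at hστ
        have h4 := (b ⟨ComplexEmbedding.conjugate σ, hconj σ h1⟩).2
        have h5 := (b ⟨ComplexEmbedding.conjugate τ, hconj τ h2⟩).2
        have h3 : b ⟨ComplexEmbedding.conjugate σ, hconj σ h1⟩ =
            b ⟨ComplexEmbedding.conjugate τ, hconj τ h2⟩ := Fin.ext (by omega)
        have h6 := congrArg Subtype.val (b.injective h3)
        have h7 : ComplexEmbedding.conjugate (ComplexEmbedding.conjugate σ) =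
            ComplexEmbedding.conjugate (ComplexEmbedding.conjugate τ) :=
          congrArg ComplexEmbedding.conjugate h6
        rwa [conj_conj, conj_conj] at h7
  · intro σ
    by_cases h1 : σ ∈ Φ
    · rw [hs1 σ h1, hs3 σ h1, hcard]
      have := (b ⟨σ, h1⟩).2
      omega
    · have h2 := hconj σ h1
      have h3 := hs3 _ h2
      rw [conj_conj] at h3
      rw [h3, hs1 _ h2, hcard]
      have := (b ⟨ComplexEmbedding.conjugate σ, h2⟩).2
      omega
  · intro σ
    rw [hs1 e heΦ, hbe]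
    by_cases h1 : σ ∈ Φ
    · rw [hs1 σ h1]
      have := (b ⟨σ, h1⟩).2
      simp only
      omega
    · rw [hs2 σ h1]
      simp only
      omega
  · rw [hs3 e heΦ, hbe]
    simp only
    omega
  · intro hge
    rw [hs1 g hgΦ, hs3 g hgΦ, hbg hge]
    simp only
    omega

end

end GD
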