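import Pool.Agent.H26.GD.Block
import Pool.Agent.H5.GD.Final

/-!
# Reduction of the Gross-Deligne relation to single periods
-/

noncomputable section

namespace GD

open Complex NumberField

/-- For imaginary cyclic fields `K` and admissible triples whose Hodge types are pairwise distinct
and consecutive, the relation for the single period attached to the identity embedding, if this
embedding has the largest Hodge type. -/
def SinglePeriod (C : Str → Prop) : Prop :=
  ∀ S, C S → ∀ (K : Type) [Field K] [NumberField K] (e : K →+* ℂ), (∃ d, LiesIn e d) →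
    (∃ x, (e x).im ≠ 0) → IsGalois ℚ K → IsCyclic (K ≃ₐ[ℚ] K) →
    ∀ (A : Adm S K) (p : (K →+* ℂ) → ℕ) (r : ℕ), A.HasType p → Function.Injective p →
      (∀ σ, r ≤ p σ ∧ p σ < r + Module.finrank ℚ K) → (∀ σ, p σ ≤ p e) →
      ∀ (d : ℕ) [NeZero d], d = conductor e → ∀ ε : ZMod d → ℚ,
        (∀ (l : (ZMod d)ˣ) (σ : K →+* ℂ), IsPhi e d l σ →
          (d : ℚ) * p σ =
            ∑ a ∈ Finset.univ.erase (0 : ZMod d), ε a * (((l : ZMod d) * a).val : ℚ)) →
        ∀ z, A.IsPeriod e z → Sim z (gammaProd d ε 1)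

section

variable {C : Str → Prop} {V : Type*} [AddCommGroup V] [Module ℚ V] {cls : ℂ → V}
variable {K : Type} [Field K] [NumberField K]

/-- Normalised types and defects of the realised data. -/
def Rv (C : Str → Prop) (cls : ℂ → V) (d : ℕ) [NeZero d] (e : K →+* ℂ)
    (he : ∀ x, e x ∈ cyc d) (f : (K →+* ℂ) → ℤ) (v : V) : Prop :=
  ∃ (m : ℕ) (c : (K →+* ℂ) → ℂ) (p : (K →+* ℂ) → ℕ) (ε : ZMod d → ℚ), Rz C K m c p ∧
    (∀ σ, f σ = 2 * (p σ : ℤ) - m) ∧ (∀ l, tsum' d (fun x => x) ε l = p (phi e he l)) ∧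
    v = cls (c e) - tsum' d (gam cls) ε 1

theorem Rv.add (hΓ : GammaSpec V cls) (hK : Kunneth C) {d : ℕ} [NeZero d] {e : K →+* ℂ}
    {he : ∀ x, e x ∈ cyc d} {f g : (K →+* ℂ) → ℤ} {v w : V} (hf : Rv C cls d e he f v)
    (hg : Rv C cls d e he g w) : Rv C cls d e he (f + g) (v + w) := by
  obtain ⟨m, c, p, ε, h1, h2, h3, rfl⟩ := hf
  obtain ⟨m', c', p', ε', h1', h2', h3', rfl⟩ := hg
  refine ⟨m + m', fun σ => c σ * c' σ, fun σ => p σ + p' σ, fun a => ε a + ε' a,
    Rz.mul hK h1 h1', ?_, ?_, ?_⟩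
  · intro σ
    rw [Pi.add_apply, h2, h2']
    push_cast
    ring
  · intro l
    rw [tsum_add, h3, h3']
    push_cast
    rfl
  · rw [hΓ.mul _ _ (h1.c_ne e) (h1'.c_ne e), tsum_add]
    abel

theorem Rv.neg (hΓ : GammaSpec V cls) (hP : ∀ S, C S → Nonempty (Pol S)) {d : ℕ} [NeZero d]
    {e : K →+* ℂ} {he : ∀ x, e x ∈ cyc d} {f : (K →+* ℂ) → ℤ} {v : V}
    (hf : Rv C cls d e he f v) : Rv C cls d e he (-f) (-v) := by
  obtain ⟨m, c, p, ε, h1, h2, h3, rfl⟩ := hf
  obtain ⟨G, hGs, hG⟩ := exists_G e he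
  have hcG : ∀ l : (ZMod d)ˣ, (phi e he l).comp (G (-1)).toRingEquiv.toRingHom =
      ComplexEmbedding.conjugate (phi e he l) := by
    intro l
    rw [phi_comp_G e he G hG, mul_neg, mul_one, conj_phi]
  have hcG1 : e.comp (G (-1)).toRingEquiv.toRingHom = ComplexEmbedding.conjugate e := by
    have := hcG 1
    rwa [phi_one] at this
  refine ⟨m, fun σ => c (σ.comp (G (-1)).toRingEquiv.toRingHom),
    fun σ => p (σ.comp (G (-1)).toRingEquiv.toRingHom),
    fun a => ε (a * (((-1 : (ZMod d)ˣ)⁻¹ : (ZMod d)ˣ) : ZMod d)), h1.twist _, ?_, ?_, ?_⟩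
  · intro σ
    obtain ⟨l, rfl⟩ := exists_phi e he σ
    have h4 := h1.p_add (phi e he l)
    beta_reduce
    rw [Pi.neg_apply, h2, hcG]
    omega
  · intro l
    beta_reduce
    rw [tsum_shift, h3, phi_comp_G e he G hG]
  · beta_reduce
    rw [tsum_shift, one_mul, hcG1]
    have h4 : cls (c e) + cls (c (ComplexEmbedding.conjugate e)) =
        (m : ℚ) • cls ((Real.pi : ℝ) : ℂ) := by
      rw [← hΓ.mul _ _ (h1.c_ne _) (h1.c_ne _), ← cls_two_pi_I hΓ]
      exact cls_of_sim hΓ (h1.pol hP e)
    have h5 := gam_odd hΓ d m ε 1 (by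
      rw [h3, h3, ← conj_phi]
      exact_mod_cast h1.p_add (phi e he 1))
    rw [neg_sub, sub_eq_sub_iff_add_eq_add, h5, ← h4, add_comm]

/-- Every bounded odd function is the normalised type of a realised datum. -/
theorem Rv.exists_of (hΓ : GammaSpec V cls) (hK : Kunneth C) {d : ℕ} [NeZero d] {e : K →+* ℂ}
    {he : ∀ x, e x ∈ cyc d} (him : ∃ x, (e x).im ≠ 0)
    (hCM : ∀ Φ : Set (K →+* ℂ), (∀ σ, σ ∈ Φ ↔ ComplexEmbedding.conjugate σ ∉ Φ) →
      ∃ c, Rz C K 1 c (typ Φ)) (M : ℕ) (hM : 1 ≤ M) (q : (K →+* ℂ) → ℕ)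
    (hq : ∀ σ, q σ + q (ComplexEmbedding.conjugate σ) = M) :
    ∃ v, Rv C cls d e he (fun σ => 2 * (q σ : ℤ) - M) v := by
  classical
  obtain ⟨Φ, hΦ1, hΦ2⟩ := exists_types (no_real e he him) M
    (fun σ => q (ComplexEmbedding.conjugate σ)) (fun σ => by
      have := hq σ
      rw [conj_conj]
      omega)
  choose c hc using fun j => hCM (Φ j) (hΦ1 j)
  have h1 := Rz.prod hK (F := K) (s := Finset.range M)
    (Finset.nonempty_range_iff.2 (by omega)) (fun _ => 1) c (fun j => typ (Φ j))
    (fun j _ => hc j)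
  have h2 : (fun σ => ∑ j ∈ Finset.range M, typ (Φ j) σ) = q := by
    funext σ
    have h3 := hΦ2 σ
    have h4 := hq σ
    omega
  rw [h2, Finset.sum_const, Finset.card_range, smul_eq_mul, mul_one] at h1
  obtain ⟨ε, hε⟩ := ex' hΓ d (three_le he him) M (fun l => (q (phi e he l) : ℚ)) (fun l => by
    rw [← conj_phi]
    exact_mod_cast hq (phi e he l))
  exact ⟨_, M, _, q, ε, h1, fun σ => rfl, hε, rfl⟩

/-- The reduction to the block types. -/
theorem core_single (hΓ : GammaSpec V cls) (hK : Kunneth C) (hP : ∀ S, C S → Nonempty (Pol S))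
    {d : ℕ} [NeZero d] (e : K →+* ℂ) (he : ∀ x, e x ∈ cyc d) (him : ∃ x, (e x).im ≠ 0)
    (hCM : ∀ Φ : Set (K →+* ℂ), (∀ σ, σ ∈ Φ ↔ ComplexEmbedding.conjugate σ ∉ Φ) →
      ∃ c, Rz C K 1 c (typ Φ))
    (hB : ∀ (s : (K →+* ℂ) → ℕ), IsBlock e s → ∀ (m r : ℕ) (c : (K →+* ℂ) → ℂ),
      Rz C K m c (fun σ => r + s σ) → ∀ ε : ZMod d → ℚ,
        (∀ l, tsum' d (fun x => x) ε l = ((r + s (phi e he l) : ℕ) : ℚ)) →
        cls (c e) = tsum' d (gam cls) ε 1)
    {m : ℕ} {c : (K →+* ℂ) → ℂ} {p : (K →+* ℂ) → ℕ} (h : Rz C K m c p) :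
    RelAll cls d e he c p := by
  classical
  set N := Module.finrank ℚ K with hN
  have hreal := no_real e he him
  -- defects of block types vanish
  have hblock : ∀ s, IsBlock e s → ∀ v,
      Rv C cls d e he (fun σ => 2 * (s σ : ℤ) - ((N : ℤ) - 1)) v → v = 0 := by
    intro s hs v hv
    obtain ⟨m, c, p, ε, h1, h2, h3, rfl⟩ := hv
    have h4 := h2 (ComplexEmbedding.conjugate e)
    beta_reduce at h4
    rw [hs.conj_e] at h4
    have h5 : p = fun σ => p (ComplexEmbedding.conjugate e) + s σ := by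
      funext σ
      have := h2 σ
      beta_reduce at this
      omega
    have h6 := hB s hs m (p (ComplexEmbedding.conjugate e)) c (by rw [← h5]; exact h1) ε
      (fun l => by
        rw [h3]
        have := congrFun h5 (phi e he l)
        exact_mod_cast this)
    rw [h6, sub_self]
  have hNe : ∀ s, IsBlock e s → s e + 1 = N := by
    intro s hs
    have := hs.symm e
    rw [hs.conj_e] at this
    omega
  have hN2 : 2 ≤ N := by
    obtain ⟨s, hs, -⟩ := exists_block hreal e e (Ne.symm (hreal e))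
    have h1 := hNe s hs
    have h2 : s e ≠ s (ComplexEmbedding.conjugate e) := fun hc => hreal e (hs.inj hc).symm
    rw [hs.conj_e] at h2
    omega
  have hblock0 : ∀ s, IsBlock e s →
      Rv C cls d e he (fun σ => 2 * (s σ : ℤ) - ((N : ℤ) - 1)) 0 := by
    intro s hs
    obtain ⟨v, hv⟩ := Rv.exists_of hΓ hK (e := e) (he := he) him hCM (N - 1) (by omega) s
      (fun σ => by
        have := hs.symm σ
        omega)
    have h1 : (fun σ => 2 * (s σ : ℤ) - ((N - 1 : ℕ) : ℤ)) =
        (fun σ => 2 * (s σ : ℤ) - ((N : ℤ) - 1)) := by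
      funext σ
      rw [Nat.cast_sub (by omega)]
      rfl
    rw [h1] at hv
    have h2 := hblock s hs v hv
    rw [h2] at hv
    exact hv
  -- the group of pairs (normalised type, defect)
  have hzero : Rv C cls d e he 0 (0 : V) := by
    obtain ⟨s, hs, -⟩ := exists_block hreal e e (Ne.symm (hreal e))
    have h1 := hblock0 s hs
    have h2 := h1.add hΓ hK (h1.neg hΓ hP)
    rwa [add_neg_cancel, neg_zero, add_zero] at h2
  let Gr : AddSubgroup (((K →+* ℂ) → ℤ) × V) :=
    { carrier := {x | Rv C cls d e he x.1 x.2}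
      add_mem' := fun {a b} ha hb => Rv.add hΓ hK ha hb
      zero_mem' := hzero
      neg_mem' := fun {a} ha => Rv.neg hΓ hP ha }
  have hGr : ∀ f v, (f, v) ∈ Gr ↔ Rv C cls d e he f v := fun f v => Iff.rfl
  have hker : ∀ v : V, ((0 : (K →+* ℂ) → ℤ), v) ∈ Gr → v = 0 := by
    intro v hv
    obtain ⟨s, hs, -⟩ := exists_block hreal e e (Ne.symm (hreal e))
    have h1 : ((fun σ => 2 * (s σ : ℤ) - ((N : ℤ) - 1)), (0 : V)) ∈ Gr := hblock0 s hs
    have h2 := Gr.add_mem hv h1
    rw [Prod.mk_add_mk, zero_add, add_zero] at h2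
    exact hblock s hs v h2
  -- odd delta functions
  let δ : (K →+* ℂ) → (K →+* ℂ) → ℤ := fun g σ =>
    (if σ = g then 1 else 0) - (if σ = ComplexEmbedding.conjugate g then 1 else 0)
  have hδ : ∀ g, g ≠ e → g ≠ ComplexEmbedding.conjugate e → ((2 : ℤ) • δ g, (0 : V)) ∈ Gr := by
    intro g hge hge'
    obtain ⟨s, hs, hsg⟩ := exists_block hreal e g hge'
    have hsg := hsg hge
    have hcg : ComplexEmbedding.conjugate g ≠ g := hreal g
    have hce : e ≠ ComplexEmbedding.conjugate g := by
      intro hc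
      apply hge'
      rw [hc, conj_conj]
    have hcce : ComplexEmbedding.conjugate e ≠ ComplexEmbedding.conjugate g := by
      intro hc
      apply hge
      rw [← conj_conj g, ← hc, conj_conj]
    let w : (K →+* ℂ) ≃ (K →+* ℂ) := Equiv.swap g (ComplexEmbedding.conjugate g)
    have hw : ∀ σ, w (ComplexEmbedding.conjugate σ) = ComplexEmbedding.conjugate (w σ) := by
      intro σ
      by_cases h1 : σ = g
      · subst h1
        rw [Equiv.swap_apply_left, Equiv.swap_apply_right, conj_conj]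
      · by_cases h2 : σ = ComplexEmbedding.conjugate g
        · subst h2
          rw [conj_conj, Equiv.swap_apply_left, Equiv.swap_apply_right]
        · rw [Equiv.swap_apply_of_ne_of_ne h1 h2, Equiv.swap_apply_of_ne_of_ne]
          · intro hc
            apply h2
            rw [← hc, conj_conj]
          · intro hc
            apply h1
            rw [← conj_conj σ, hc, conj_conj]
    have hwe : w e = e := Equiv.swap_apply_of_ne_of_ne (Ne.symm hge) hce
    have hs' : IsBlock e (fun σ => s (w σ)) := by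
      refine ⟨hs.inj.comp w.injective, ?_, ?_, ?_⟩
      · intro σ
        rw [hw]
        exact hs.symm (w σ)
      · intro σ
        rw [hwe]
        exact hs.max _
      · rw [hw, hwe]
        exact hs.conj_e
    have h1 : ((fun σ => 2 * (s σ : ℤ) - ((N : ℤ) - 1)), (0 : V)) ∈ Gr := hblock0 s hs
    have h2 : ((fun σ => 2 * (s (w σ) : ℤ) - ((N : ℤ) - 1)), (0 : V)) ∈ Gr :=
      hblock0 _ hs'
    have h3 := Gr.sub_mem h1 h2
    rw [Prod.mk_sub_mk, sub_zero] at h3
    have h4 : ((fun σ => 2 * (s σ : ℤ) - ((N : ℤ) - 1)) -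
        fun σ => 2 * (s (w σ) : ℤ) - ((N : ℤ) - 1)) = (2 : ℤ) • δ g := by
      funext σ
      rw [Pi.sub_apply, Pi.smul_apply, smul_eq_mul]
      simp only [δ]
      by_cases h5 : σ = g
      · subst h5
        rw [Equiv.swap_apply_left, if_pos rfl, if_neg (Ne.symm hcg)]
        omega
      · by_cases h6 : σ = ComplexEmbedding.conjugate g
        · subst h6
          rw [Equiv.swap_apply_right, if_neg hcg, if_pos rfl]
          omega
        · rw [Equiv.swap_apply_of_ne_of_ne h5 h6, if_neg h5, if_neg h6]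
          ring
    rw [h4] at h3
    exact h3
  -- reduction of odd functions
  have hodd : ∀ f : (K →+* ℂ) → ℤ, (∀ σ, f (ComplexEmbedding.conjugate σ) = - f σ) →
      ((4 : ℤ) • f - (4 * f e) • δ e, (0 : V)) ∈ Gr := by
    intro f hf
    have h1 : (4 : ℤ) • f - (4 * f e) • δ e =
        ∑ g ∈ (Finset.univ.erase e).erase (ComplexEmbedding.conjugate e),
          f g • ((2 : ℤ) • δ g) := by
      have h2 : ∑ g, f g • ((2 : ℤ) • δ g) = (4 : ℤ) • f := by
        funext τ
        rw [Finset.sum_apply]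
        have h3 : ∀ g, (f g • ((2 : ℤ) • δ g)) τ =
            (if τ = g then 2 * f g else 0) -
              (if τ = ComplexEmbedding.conjugate g then 2 * f g else 0) := by
          intro g
          rw [Pi.smul_apply, Pi.smul_apply, smul_eq_mul, smul_eq_mul]
          simp only [δ]
          split_ifs <;> ring
        rw [Finset.sum_congr rfl (fun g _ => h3 g), Finset.sum_sub_distrib,
          Finset.sum_ite_eq Finset.univ τ, if_pos (Finset.mem_univ _)]
        have h4 : ∀ g, (if τ = ComplexEmbedding.conjugate g then 2 * f g else 0) =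
            (if ComplexEmbedding.conjugate τ = g then 2 * f g else 0) := by
          intro g
          by_cases h5 : τ = ComplexEmbedding.conjugate g
          · rw [if_pos h5, if_pos (by rw [h5, conj_conj])]
          · rw [if_neg h5, if_neg]
            intro hc
            apply h5
            rw [← hc, conj_conj]
        rw [Finset.sum_congr rfl (fun g _ => h4 g), Finset.sum_ite_eq Finset.univ,
          if_pos (Finset.mem_univ _), hf, Pi.smul_apply, smul_eq_mul]
        ring
      have h5 : ComplexEmbedding.conjugate e ∈ Finset.univ.erase e :=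
        Finset.mem_erase.2 ⟨hreal e, Finset.mem_univ _⟩
      rw [← Finset.add_sum_erase _ _ (Finset.mem_univ e), ← Finset.add_sum_erase _ _ h5] at h2
      have h6 : δ (ComplexEmbedding.conjugate e) = - δ e := by
        funext τ
        rw [Pi.neg_apply]
        simp only [δ]
        rw [conj_conj]
        ring
      rw [← h2, hf, h6]
      funext τ
      simp only [Pi.sub_apply, Pi.add_apply, Pi.smul_apply, Pi.neg_apply, smul_eq_mul]
      ring
    rw [h1]
    have h7 : ∀ S : Finset (K →+* ℂ), (∀ g ∈ S, g ≠ e ∧ g ≠ ComplexEmbedding.conjugate e) →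
        (∑ g ∈ S, f g • ((2 : ℤ) • δ g), (0 : V)) ∈ Gr := by
      intro S
      induction S using Finset.induction_on with
      | empty => intro _; rw [Finset.sum_empty]; exact Gr.zero_mem
      | insert g S hg ih =>
        intro hS
        rw [Finset.sum_insert hg]
        have h8 := Gr.zsmul_mem (hδ g (hS g (Finset.mem_insert_self _ _)).1
          (hS g (Finset.mem_insert_self _ _)).2) (f g)
        rw [Prod.smul_mk, smul_zero] at h8
        have h9 := Gr.add_mem h8 (ih (fun g' hg' => hS g' (Finset.mem_insert_of_mem hg')))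
        rw [Prod.mk_add_mk, add_zero] at h9
        exact h9
    apply h7
    intro g hg
    rw [Finset.mem_erase, Finset.mem_erase] at hg
    exact ⟨hg.2.1, hg.1⟩
  have hδe : ((4 * ((N : ℤ) - 1)) • δ e, (0 : V)) ∈ Gr := by
    obtain ⟨s, hs, -⟩ := exists_block hreal e e (Ne.symm (hreal e))
    have h1 : ((fun σ => 2 * (s σ : ℤ) - ((N : ℤ) - 1)), (0 : V)) ∈ Gr := hblock0 s hs
    have h2 := hodd (fun σ => 2 * (s σ : ℤ) - ((N : ℤ) - 1)) (by
      intro σ
      have := hs.symm σ
      omega)
    have h3 := Gr.zsmul_mem h1 4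
    have h4 := Gr.sub_mem h3 h2
    rw [Prod.smul_mk, smul_zero, Prod.mk_sub_mk, sub_zero, sub_sub_cancel] at h4
    have h5 : (4 * (2 * (s e : ℤ) - ((N : ℤ) - 1))) = 4 * ((N : ℤ) - 1) := by
      have := hNe s hs
      omega
    rw [h5] at h4
    exact h4
  have hall : ∀ f : (K →+* ℂ) → ℤ, (∀ σ, f (ComplexEmbedding.conjugate σ) = - f σ) →
      ((4 * ((N : ℤ) - 1)) • f, (0 : V)) ∈ Gr := by
    intro f hf
    have h1 := Gr.zsmul_mem (hodd f hf) ((N : ℤ) - 1)
    have h2 := Gr.zsmul_mem hδe (f e)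
    have h3 := Gr.add_mem h1 h2
    rw [Prod.smul_mk, Prod.smul_mk, smul_zero, smul_zero, Prod.mk_add_mk, add_zero] at h3
    have h4 : ((N : ℤ) - 1) • ((4 : ℤ) • f - (4 * f e) • δ e) +
        f e • ((4 * ((N : ℤ) - 1)) • δ e) = (4 * ((N : ℤ) - 1)) • f := by
      funext τ
      simp only [Pi.sub_apply, Pi.add_apply, Pi.smul_apply, smul_eq_mul]
      ring
    rw [h4] at h3
    exact h3
  -- all defects vanish at the identity
  have hfin : ∀ (m : ℕ) (c : (K →+* ℂ) → ℂ) (p : (K →+* ℂ) → ℕ) (ε : ZMod d → ℚ),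
      Rz C K m c p → (∀ l, tsum' d (fun x => x) ε l = p (phi e he l)) →
      cls (c e) = tsum' d (gam cls) ε 1 := by
    intro m c p ε hR hε
    rw [← sub_eq_zero]
    set v : V := cls (c e) - tsum' d (gam cls) ε 1 with hv
    have h1 : ((fun σ => 2 * (p σ : ℤ) - m), v) ∈ Gr :=
      ⟨m, c, p, ε, hR, fun σ => rfl, hε, rfl⟩
    have h2 := Gr.zsmul_mem h1 (4 * ((N : ℤ) - 1))
    have h3 := hall (fun σ => 2 * (p σ : ℤ) - m) (by
      intro σ
      have := hR.p_add σ
      omega)
    have h4 := Gr.sub_mem h2 h3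
    rw [Prod.smul_mk, Prod.mk_sub_mk, sub_self, sub_zero] at h4
    have h5 := hker _ h4
    have h6 : (((4 * ((N : ℤ) - 1) : ℤ) : ℚ)) • v = 0 := by
      rw [← h5, Int.cast_smul_eq_zsmul]
    rcases smul_eq_zero.1 h6 with h7 | h7
    · exfalso
      have h8 : 4 * ((N : ℤ) - 1) = 0 := by exact_mod_cast h7
      omega
    · exact h7
  -- all embeddings
  intro ε hε l
  obtain ⟨G, hGs, hG⟩ := exists_G e he
  have h1 := hfin m (fun σ => c (σ.comp (G l).toRingEquiv.toRingHom))
    (fun σ => p (σ.comp (G l).toRingEquiv.toRingHom))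
    (fun a => ε (a * ((l⁻¹ : (ZMod d)ˣ) : ZMod d))) (h.twist (G l).toRingEquiv) (by
      intro k
      rw [tsum_shift, hε, phi_comp_G e he G hG])
  rw [tsum_shift, one_mul] at h1
  have h2 := phi_comp_G e he G hG 1 l
  rw [one_mul, phi_one] at h2
  rw [h2] at h1
  exact h1

/-- The Gross-Deligne conjecture for the class is equivalent to the relation for the single
periods of `SinglePeriod`. -/
theorem single_iff (hΓ : GammaSpec V cls) (C : Str → Prop) (hK : Kunneth C)
    (hP : ∀ S, C S → Nonempty (Pol S)) (hCM : HasCM C) :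
    GrossDeligne C ↔ SinglePeriod C := by
  constructor
  · intro h S hS K _ _ e hex _ _ _ A p r hT _ _ _ d _ hd ε hε z hz
    have hc := liesIn_conductor hex
    rw [← hd] at hc
    refine h S hS K e hex A d hd p hT ε hε 1 e ?_ z hz
    rw [isPhi_iff e hc.2, phi_one]
  · intro h S hS F _ _ e hex A
    refine cyclic_subfields hΓ C hK hP F e hex ?_ S hS A
    intro K _ _ i him hGal hcyc
    have hexK : ∃ d, LiesIn (e.comp i) d := by
      obtain ⟨d, hd, h⟩ := hex
      exact ⟨d, hd, fun x => h (i x)⟩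
    intro S hS A d _ hd
    have hc := liesIn_conductor hexK
    rw [← hd] at hc
    intro p hp
    obtain ⟨f, hf, hfp⟩ := A.exists_fam p hp
    have h1 : RelAll cls d (e.comp i) hc.2 f.c f.p := by
      refine core_single hΓ hK hP (e.comp i) hc.2 him ?_ ?_ ⟨S, hS, rfl, f, rfl, rfl⟩
      · intro Φ hΦ
        obtain ⟨S, hS, hwt, A, hA1, hA0⟩ := hCM K (e.comp i) hexK him hGal hcyc Φ hΦ
        have hTy : A.HasType (typ Φ) := by
          intro σ
          unfold typ
          by_cases hσ : σ ∈ Φ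
          · rw [if_pos hσ]
            exact hA1 σ hσ
          · rw [if_neg hσ]
            exact hA0 σ hσ
        obtain ⟨f, hf, hfp⟩ := A.exists_fam (typ Φ) hTy
        exact ⟨f.c, S, hS, hwt, f, rfl, hfp⟩
      · intro s hs m r c hR ε hε
        obtain ⟨S, hS, -, f, rfl, hfp⟩ := hR
        obtain ⟨A, hA, hTy⟩ := f.exists_adm
        obtain ⟨z, hz⟩ := hA.exists_period (e.comp i)
        have h2 := h S hS K (e.comp i) hexK him hGal hcyc A f.p r hTy
          (by
            rw [hfp]
            intro σ τ hστ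
            exact hs.inj (Nat.add_left_cancel hστ))
          (by
            intro σ
            rw [hfp]
            have := hs.symm σ
            beta_reduce
            omega)
          (by
            intro σ
            rw [hfp]
            exact Nat.add_le_add_left (hs.max σ) r)
          d hd ε
          (by
            intro l σ hσ
            rw [isPhi_iff (e.comp i) hc.2] at hσ
            subst hσ
            rw [sum_erase, ← tsum_id, hε, hfp]) z hz
        rw [← cls_of_sim hΓ (hA.period_sim hz), cls_of_sim hΓ h2, cls_gammaProd hΓ]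
    exact relationAt_of hΓ hf hc.2 h1 p hp

end

end GD
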